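import Pool.Agent.H6.KY.Mean

/-!
# The error term in the count of powerful numbers: means, and points in every window

`Q x` is the number of powerful numbers up to `x`, `E x = Q x - A x ^ (1/2) - B x ^ (1/3)`,
`A = ζ(3/2)/ζ(3)`, `B = ζ(2/3)/ζ(2)`. The known bound is `E x = O(x ^ (1/6))`; `E x = O(x ^ (1/6 - δ))`, the
question, would give a zero-free half plane of `ζ`. The following is proved without hypothesis.

* (1) For every `θ > 1/12` there is a window size `R > 1` for which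
  `E` has a mean of size `O(x ^ θ)` over `[x / R, x]`: there is a fixed smooth probability density `w ≥ 0` on
  `[0, log R]` with `∫ E (x e ^ (-v)) w(v) dv = O(x ^ θ)`; and every window `[x, R x]`, `x ≥ 1`, contains a
  point `y` with `|E y| ≤ C y ^ θ`.
* (2) For every window size `R > 1`, however close to `1`, the same holds with some exponent `θ < 1/6`. So the
  exponent `1/6` can be lowered at points of every window `[x, R x]`, and in the mean over it.
* (3) For every `θ > 1/12` and every `R > 1` there is a smooth weight `w` on `[0, log R]` with integral one, not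
  necessarily nonnegative, with mean `O(x ^ θ)`.

Proof. The function `a(n) = 1[n powerful] - A 1[n square] - B 1[n cube]` has the summatory function `E(x) + O(1)` and
the Dirichlet series `(ζ(2s) ζ(3s) - A ζ(2s) ζ(6s) - B ζ(3s) ζ(6s)) / ζ(6s)`, the poles of which in `Re s > 1/12` are at
zeros `ρ/6`. A random walk (library) whose Laplace transform vanishes at the zeros `ρ` of `ζ` with `Re ρ ≥ σ` is
stretched by the factor `6`; its length is finite for `σ > 1/2` and tends to zero for `σ → 1`, because of a zero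
density estimate. The contour is moved to `Re s = θ`. The points are obtained from the nonnegative means by a discrete
intermediate value theorem.
-/

namespace Pool.Agent.Results.MP_3c396f_nt.EveryWindow

open Set MeasureTheory
open scoped ContDiff

/-- The number of powerful numbers `1 ≤ n ≤ x`. -/
noncomputable def Q (x : ℝ) : ℕ :=
  {n : ℕ | 1 ≤ n ∧ (n : ℝ) ≤ x ∧ ∀ p : ℕ, p.Prime → p ∣ n → p ^ 2 ∣ n}.ncard

/-- The constant `A = ζ(3/2)/ζ(3)` (a real number, see the first part of the result). -/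
noncomputable def A : ℝ := (riemannZeta (3 / 2) / riemannZeta 3).re

/-- The constant `B = ζ(2/3)/ζ(2)` (a real number, see the first part of the result). -/
noncomputable def B : ℝ := (riemannZeta (2 / 3) / riemannZeta 2).re

/-- The error term. -/
noncomputable def E (x : ℝ) : ℝ := Q x - A * x ^ (1 / 2 : ℝ) - B * x ^ (1 / 3 : ℝ)

/-- `w` is smooth, vanishes outside `[0, log R]`, has integral one, and the mean of `E` over
`[x / R, x]` with weight `w` is `O(x ^ θ)`. -/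
def Mean (θ R : ℝ) (w : ℝ → ℝ) : Prop :=
  ContDiff ℝ ∞ w ∧ (∀ v, v ∉ Icc 0 (Real.log R) → w v = 0) ∧ (∫ v in (0 : ℝ)..Real.log R, w v) = 1 ∧
    ∃ C : ℝ, ∀ x : ℝ, 1 ≤ x →
      |∫ v in (0 : ℝ)..Real.log R, E (x * Real.exp (-v)) * w v| ≤ C * x ^ θ

/-- Every window `[x, R x]`, `x ≥ 1`, contains a point `y` with `|E y| ≤ C y ^ θ`. -/
def Points (θ R : ℝ) : Prop :=
  ∃ C : ℝ, ∀ x : ℝ, 1 ≤ x → ∃ y : ℝ, x ≤ y ∧ y ≤ R * x ∧ |E y| ≤ C * y ^ θ

open H353 in
theorem mean_of {L θ : ℝ} (hL : 0 < L) {g : ℝ → ℝ} (hg : ST L g) (hθ : 0 < θ)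
    (hb : ∃ C : ℝ, 0 < C ∧ ∀ t : ℝ, |SG Pool.Agent.H6.KY.aE g t| ≤ C * Real.exp (θ * t))
    {R : ℝ} (hR : Real.log R = L) : Mean θ R (deriv g) := by
  obtain ⟨C, hC, hb⟩ := hb
  obtain ⟨C', _, h⟩ := Pool.Agent.H6.KY.mean_E hL hg hθ hC hb
  rw [← hR] at h
  refine ⟨(contDiff_infty_iff_deriv.1 hg.smooth).2, fun v hv => ?_, ?_, C', h⟩
  · rw [hR] at hv
    exact hg.tf.supp v hv
  · rw [hR, intervalIntegral.integral_deriv_eq_sub
      (fun x _ => (hg.smooth.differentiable (by simp)).differentiableAt)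
      ((Pool.Agent.H6.KY.deriv_cont hg).intervalIntegrable _ _), hg.one L le_rfl, hg.zero 0 le_rfl, sub_zero]

theorem Mean.mono {θ θ' R : ℝ} {w : ℝ → ℝ} (h : Mean θ R w) (hle : θ ≤ θ') : Mean θ' R w := by
  obtain ⟨h1, h2, h3, C, hC⟩ := h
  refine ⟨h1, h2, h3, |C|, fun x hx => (hC x hx).trans ?_⟩
  have h4 : 0 < x ^ θ := Real.rpow_pos_of_pos (by linarith) _
  have h5 : x ^ θ ≤ x ^ θ' := Real.rpow_le_rpow_of_exponent_le hx hle
  calc C * x ^ θ ≤ |C| * x ^ θ := by gcongr; exact le_abs_self C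
    _ ≤ |C| * x ^ θ' := by gcongr

theorem Points.mono {θ θ' R : ℝ} (h : Points θ R) (hle : θ ≤ θ') : Points θ' R := by
  obtain ⟨C, hC⟩ := h
  refine ⟨|C|, fun x hx => ?_⟩
  obtain ⟨y, h1, h2, h3⟩ := hC x hx
  have hy : 1 ≤ y := hx.trans h1
  refine ⟨y, h1, h2, h3.trans ?_⟩
  have h4 : 0 < y ^ θ := Real.rpow_pos_of_pos (by linarith) _
  have h5 : y ^ θ ≤ y ^ θ' := Real.rpow_le_rpow_of_exponent_le hy hle
  calc C * y ^ θ ≤ |C| * y ^ θ := by gcongr; exact le_abs_self C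
    _ ≤ |C| * y ^ θ' := by gcongr

open H353 in
theorem points_of {L θ : ℝ} (hL : 0 < L) {g : ℝ → ℝ} (hg : ST L g) (hm : Monotone g) (hθ : 0 < θ)
    (hb : ∃ C : ℝ, 0 < C ∧ ∀ t : ℝ, |SG Pool.Agent.H6.KY.aE g t| ≤ C * Real.exp (θ * t))
    {R : ℝ} (hR : Real.exp L < R) : Points θ R := by
  obtain ⟨C, hC, hb⟩ := hb
  obtain ⟨C', _, h⟩ := Pool.Agent.H6.KY.points_E hL hg hm hθ hC hb R hR
  exact ⟨C', h⟩

/-- **Means of the error term and points in every window.** -/
theorem result :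
    ((A : ℂ) = riemannZeta (3 / 2) / riemannZeta 3 ∧ (B : ℂ) = riemannZeta (2 / 3) / riemannZeta 2) ∧
    (∀ θ : ℝ, 1 / 12 < θ → ∃ R : ℝ, 1 < R ∧ (∃ w, (∀ v, 0 ≤ w v) ∧ Mean θ R w) ∧ Points θ R) ∧
    (∀ R : ℝ, 1 < R → ∃ θ : ℝ, 1 / 12 < θ ∧ θ < 1 / 6 ∧
      (∃ w, (∀ v, 0 ≤ w v) ∧ Mean θ R w) ∧ Points θ R) ∧
    (∀ θ R : ℝ, 1 / 12 < θ → 1 < R → ∃ w, Mean θ R w) := by
  refine ⟨⟨Pool.Agent.H6.KY.cA_eq, Pool.Agent.H6.KY.cB_eq⟩, fun θ hθ => ?_, fun R hR => ?_, fun θ R hθ hR => ?_⟩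
  · set θ₁ : ℝ := min θ (1 / 7) with hθ₁
    have h1 : 1 / 12 < θ₁ := lt_min hθ (by norm_num)
    have h2 : θ₁ ≤ 1 / 7 := min_le_right _ _
    have h3 : θ₁ ≤ θ := min_le_left _ _
    obtain ⟨L, g, hL, hg, hm, hb⟩ := Pool.Agent.H6.KY.good_mono_pow (6 * θ₁) (by linarith) (by linarith)
    rw [show 6 * θ₁ / 6 = θ₁ by ring] at hb
    have hlog : Real.log (Real.exp (2 * L)) = 2 * L := Real.log_exp _
    refine ⟨Real.exp (2 * L), Real.one_lt_exp_iff.2 (by linarith), ⟨deriv g, fun v => hm.deriv_nonneg, ?_⟩, ?_⟩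
    · exact (mean_of (L := 2 * L) (by linarith) (hg.mono (by linarith)) (by linarith) hb hlog).mono h3
    · exact (points_of hL hg hm (by linarith) hb (Real.exp_lt_exp.2 (by linarith))).mono h3
  · have hlog : 0 < Real.log R := Real.log_pos hR
    obtain ⟨θ, g, h1, h2, hg, hm, hb⟩ := Pool.Agent.H6.KY.good_mono_every (Real.log R / 2) (by linarith)
    refine ⟨θ / 6, by linarith, by linarith, ⟨deriv g, fun v => hm.deriv_nonneg, ?_⟩, ?_⟩
    · exact mean_of hlog (hg.mono (by linarith)) (by linarith) hb rfl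
    · refine points_of (by linarith) hg hm (by linarith) hb ?_
      rw [← Real.lt_log_iff_exp_lt (by linarith)]
      linarith
  · set θ₁ : ℝ := min θ (1 / 7) with hθ₁
    have h1 : 1 / 12 < θ₁ := lt_min hθ (by norm_num)
    have h2 : θ₁ ≤ 1 / 7 := min_le_right _ _
    have h3 : θ₁ ≤ θ := min_le_left _ _
    have hlog : 0 < Real.log R := Real.log_pos hR
    obtain ⟨g, hg, hb⟩ := Pool.Agent.H6.KY.good_signed_pow (Real.log R) (6 * θ₁) hlog (by linarith) (by linarith)
    rw [show 6 * θ₁ / 6 = θ₁ by ring] at hb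
    exact ⟨deriv g, (mean_of hlog hg (by linarith) hb rfl).mono h3⟩

end Pool.Agent.Results.MP_3c396f_nt.EveryWindow
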